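import Mathlib
import Pool.Agent.Lib.MP_e7e3bc_an.Defs
import Pool.Agent.Lib.MP_e7e3bc_an.Main

namespace Pool.Agent.Results.MP_e7e3bc_an.TorusTuringComplete

open TuringEuler

/-- There is a stationary Euler flow on the flat torus `T³ = ℝ³/ℤ³` which is Turing complete.
Moreover it can be taken to be a computable vector field, a Beltrami field of unit length, and
Turing complete in a robust and clocked form which applies uniformly to all Turing machines. -/
theorem result : ∃ X : E3 → E3, IsStationaryEulerFlow X ∧ IsTuringComplete X ∧
    IsRobustlyTuringComplete X ∧ IsComputableField X ∧ IsBeltrami X ∧ ∀ x, ‖X x‖ = 1 :=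
  main_result

end Pool.Agent.Results.MP_e7e3bc_an.TorusTuringComplete
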